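import Mathlib
import Pool.Agent.R463.Line

set_option autoImplicit false

/-!
# Regular points of arbitrary sets of prime or almost prime values along the line `x + y = n`
-/

namespace Pool.Agent.Results.MP_0da313_nt.RegularPoints

open Polynomial Finset Filter
open scoped Polynomial.Bivariate
open Pool.Agent.R463.PS

/-- the polynomial `g_{k,n} (x) = f_k (x, n - x)`; the outer variable of `f k` is `y` -/
noncomputable def gp {m : ℕ} (f : Fin m → ℤ[X][Y]) (n : ℕ) (k : Fin m) : ℤ[X] :=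
  (f k).eval (C (n : ℤ) - X)

/-- the conditions on `n`: all `g_{k,n}` are irreducible and not constant, and for every prime `p` there is
`x` such that `p` divides no `g_{k,n} (x)` -/
def Admissible {m : ℕ} (f : Fin m → ℤ[X][Y]) (n : ℕ) : Prop :=
  (∀ k, Irreducible (gp f n k)) ∧ (∀ k, 1 ≤ (gp f n k).natDegree) ∧
    ∀ p : ℕ, p.Prime → ∃ x : ℕ, ∀ k, ¬ (p : ℤ) ∣ (gp f n k).eval (x : ℤ)

/-- no value `f_k (x, n - x)` has a prime factor `p ≤ n ^ (1 / r)` -/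
def Good {m : ℕ} (f : Fin m → ℤ[X][Y]) (n r x : ℕ) : Prop :=
  ∀ p : ℕ, p.Prime → (p : ℝ) ≤ (n : ℝ) ^ (1 / (r : ℝ)) → ∀ k, ¬ (p : ℤ) ∣ (gp f n k).eval (x : ℤ)

open Classical in
/-- the number of the residues `x` modulo `p` for which `p` divides some `f_k (x, n - x)` -/
noncomputable def om {m : ℕ} (f : Fin m → ℤ[X][Y]) (n p : ℕ) : ℕ :=
  ((range p).filter (fun x : ℕ => ∃ k, (p : ℤ) ∣ (gp f n k).eval (x : ℤ))).card

/-- the density: the product of `1 - om(p) / p` over the primes `p ≤ n ^ (1 / r)` -/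
noncomputable def V {m : ℕ} (f : Fin m → ℤ[X][Y]) (n r : ℕ) : ℝ :=
  ∏ p ∈ (Icc 1 ⌊(n : ℝ) ^ (1 / (r : ℝ))⌋₊).filter Nat.Prime, (1 - (om f n p : ℝ) / p)

lemma good_iff {m : ℕ} (f : Fin m → ℤ[X][Y]) (n r x : ℕ) : Good f n r x ↔ Sifted (lns f n) n r x := Iff.rfl

lemma V_eq {m : ℕ} (f : Fin m → ℤ[X][Y]) (n r : ℕ) : V f n r = Pool.Agent.R463.PS.V (lns f n) n r := rfl

open Classical in
/-- **Regular points of arbitrary sets of almost prime values along the lines `x + y = n`.**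

`Regular S V κ δ D H x`: every interval `(x - s, x + t]`, `s, t ≤ H`, with `κ (s + t) V ≥ 1` contains
between `κ (s + t) V` and `(s + t) V / κ` elements of `S`, and for all scales `1 / V ≤ 2 ^ j ≤ H` with at
most `D` exceptions there is a density `κ ≤ lam ≤ 1 / κ` such that all intervals `(x - s, x + t]`,
`s, t ≤ 2 ^ j`, contain `lam (s + t) V` elements of `S`, up to `δ 2 ^ j V`.

Let `f_1, ..., f_m` be arbitrary polynomials in `x`, `y`. For `θ > 0` there is `r₀` such that for all `r ≥ r₀`,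
`C₀ > 0` and `ε > 0` there is `κ > 0`, and for all `δ > 0` there is `D`, such that for ALL large admissible
`n` with `V ≤ C₀ / log n`, all intervals `(u, u + H]` with `n ^ θ ≤ H ≤ n`, `H ≤ u`, and EVERY set `S` of
good integers: at most `ε H V` elements of `S` in `(u, u + H]` are not regular points of `S`. -/
theorem result (m : ℕ) (f : Fin m → ℤ[X][Y]) (θ : ℝ) (hθ : 0 < θ) :
    ∃ r₀ : ℕ, 2 ≤ r₀ ∧ ∀ r : ℕ, r₀ ≤ r → ∀ C₀ : ℝ, 0 < C₀ → ∀ ε : ℝ, 0 < ε → ∃ κ : ℝ, 0 < κ ∧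
      ∀ δ : ℝ, 0 < δ → ∃ D : ℕ, ∀ᶠ n : ℕ in atTop, Admissible f n → V f n r ≤ C₀ / Real.log n →
        ∀ u H : ℕ, (n : ℝ) ^ θ ≤ H → H ≤ n → H ≤ u →
        ∀ S : Set ℕ, (∀ x ∈ S, Good f n r x) →
          (((Ioc u (u + H)).filter (fun x => x ∈ S ∧ ¬ Regular S (V f n r) κ δ D H x)).card : ℝ) ≤
            ε * (H * V f n r) := by
  obtain ⟨D, E, hE, hsys⟩ := lns_system f
  obtain ⟨r₀, hr₀, h⟩ := regular m D (2 * (m * m)) E 1 θ hE one_pos hθ
  refine ⟨r₀, hr₀, fun r hr C₀ hC₀ ε hε => ?_⟩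
  obtain ⟨κ, hκ, h1⟩ := h r hr C₀ hC₀ ε hε
  refine ⟨κ, hκ, fun δ hδ => ?_⟩
  obtain ⟨D', h2⟩ := h1 δ hδ
  refine ⟨D', ?_⟩
  filter_upwards [h2, hsys] with n h1 h2 hadm hV u H hH hHn hHu S hS
  obtain ⟨E₀, hE1, hE2⟩ := few_shifts (lns f n) hadm.2.1
  rw [V_eq] at hV ⊢
  refine h1 _ (h2 _ hadm.1 hadm.2.1 hadm.2.2 ?_) E₀ hE1 (fun i j t _ _ ht => hE2 i j t ht) hV
    u H hH hHn hHu S hS
  intro i j t ht ht0
  have h3 : (1 : ℝ) ≤ t := by exact_mod_cast ht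
  linarith

end Pool.Agent.Results.MP_0da313_nt.RegularPoints
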