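import Mathlib
import Pool.Agent.R463.NarLin
import Pool.Agent.R463.Quad

set_option autoImplicit false

/-!
# Narrow progressions in arbitrary sets of prime or almost prime values of quadratic polynomials
-/

namespace Pool.Agent.Results.MP_a17b09_nt.NarrowProgressions

open Finset Filter

/-- The triples of Conjecture F: `a > 0`, `gcd (a, b, c) = 1`, `a + b` and `c` are not both even, the
discriminant is not a square. -/
def Admissible (a b c : ℤ) : Prop :=
  0 < a ∧ (∀ p : ℕ, p.Prime → ¬ ((p : ℤ) ∣ a ∧ (p : ℤ) ∣ b ∧ (p : ℤ) ∣ c)) ∧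
    ¬ (Even (a + b) ∧ Even c) ∧ ¬ IsSquare (b ^ 2 - 4 * a * c)

/-- The `n` such that all prime factors of `a n ^ 2 + b n + c` are larger than `n ^ (1 / r)`. -/
def RoughAt (a b c : ℤ) (r : ℕ) : Set ℕ :=
  {n | ∀ p : ℕ, p.Prime → (p : ℤ) ∣ a * (n : ℤ) ^ 2 + b * n + c → (n : ℝ) ^ (1 / (r : ℝ)) < (p : ℝ)}

/-- `n` is a term of an `l`-term arithmetic progression with difference at most `D`, all terms of which
are elements of `A` in the interval `(a, b]`. -/
def InProgression (A : Set ℕ) (l : ℕ) (D : ℝ) (a b n : ℕ) : Prop :=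
  ∃ u d : ℕ, 1 ≤ d ∧ (d : ℝ) ≤ D ∧ (∀ i < l, u + i * d ∈ A ∧ a < u + i * d ∧ u + i * d ≤ b) ∧
    ∃ i < l, n = u + i * d

/-- from some point on, all `n` for which the value is a prime are in `RoughAt` -/
theorem prime_sub (a b c : ℤ) (ha : 0 < a) (r : ℕ) (hr : 2 ≤ r) (n : ℕ) (hn : b.natAbs + c.natAbs + 2 ≤ n)
    (hp : (a * (n : ℤ) ^ 2 + b * n + c).natAbs.Prime) : n ∈ RoughAt a b c r := by
  intro p hpp hd
  have h1 : (n : ℤ) ≤ a * (n : ℤ) ^ 2 + b * n + c := by
    have hb : -(b.natAbs : ℤ) ≤ b := by omega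
    have hc : -(c.natAbs : ℤ) ≤ c := by omega
    have hn' : (b.natAbs : ℤ) + c.natAbs + 2 ≤ n := by exact_mod_cast hn
    have hn0 : (0 : ℤ) ≤ n := Int.natCast_nonneg n
    have hb0 : (0 : ℤ) ≤ b.natAbs := Int.natCast_nonneg _
    have hc0 : (0 : ℤ) ≤ c.natAbs := Int.natCast_nonneg _
    have g1 : (n : ℤ) ^ 2 ≤ a * (n : ℤ) ^ 2 := by nlinarith [sq_nonneg (n : ℤ)]
    have g2 : -(b.natAbs : ℤ) * n ≤ b * n := mul_le_mul_of_nonneg_right hb hn0
    nlinarith
  have h2 : p = (a * (n : ℤ) ^ 2 + b * n + c).natAbs := by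
    apply (Nat.prime_dvd_prime_iff_eq hpp hp).1
    exact Int.natCast_dvd.1 hd
  have h3 : n ≤ p := by
    rw [h2]
    omega
  have hn1 : (1 : ℝ) < n := by exact_mod_cast (by omega : 1 < n)
  have hr2 : (2 : ℝ) ≤ r := by exact_mod_cast hr
  have h4 : (n : ℝ) ^ (1 / (r : ℝ)) < n := by
    have h5 : (1 / (r : ℝ)) < 1 := by
      rw [div_lt_one (by linarith)]
      linarith
    have := Real.rpow_lt_rpow_of_exponent_lt hn1 h5
    rwa [Real.rpow_one] at this
  exact h4.trans_le (by exact_mod_cast h3)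

open Classical in
/-- **Narrow progressions.** For every admissible triple `(a, b, c)`:
(1) for every `r ≥ 2`, all `n ≥ |b| + |c| + 2` for which `a n ^ 2 + b n + c` is a prime belong to
`RoughAt`, that is, it has no prime factor `≤ n ^ (1 / r)`;
(2) let `θ > 0`, `r, l ≥ 2` and `ε > 0`. There is an exponent `B` such that for all large `X`, all
`X ^ θ ≤ Y ≤ X` and EVERY set `A` of numbers `n` such that `a n ^ 2 + b n + c` has no prime factor
`≤ n ^ (1 / r)`, for instance every set of `n` for which it is prime: all but at most `ε Y / log X` of the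
elements of `A` in `(X, X + Y]` are terms of `l`-term arithmetic progressions, contained in the part of
`A` in `(X, X + Y]`, with difference at most `(log X) ^ B`. -/
theorem result (a b c : ℤ) (hadm : Admissible a b c) :
    (∀ r : ℕ, 2 ≤ r → ∀ n : ℕ, b.natAbs + c.natAbs + 2 ≤ n →
      (a * (n : ℤ) ^ 2 + b * n + c).natAbs.Prime → n ∈ RoughAt a b c r) ∧
    ∀ θ : ℝ, 0 < θ → ∀ r : ℕ, 2 ≤ r → ∀ l : ℕ, 2 ≤ l → ∀ ε : ℝ, 0 < ε →
    ∃ B : ℕ, ∀ᶠ X : ℕ in atTop, ∀ Y : ℕ, (X : ℝ) ^ θ ≤ Y → Y ≤ X →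
      ∀ A : Set ℕ, A ⊆ RoughAt a b c r →
        (((Ioc X (X + Y)).filter (fun n : ℕ =>
          n ∈ A ∧ ¬ InProgression A l (Real.log X ^ B) X (X + Y) n)).card : ℝ) ≤
        ε * (Y / Real.log X) := by
  obtain ⟨g1, g2, g3, g4⟩ := hadm
  refine ⟨fun r hr n hn hp => prime_sub a b c g1 r hr n hn hp, ?_⟩
  intro θ hθ r hr l hl ε hε
  obtain ⟨B, hB⟩ := Pool.Agent.Y677.RSZ.narrow (Pool.Agent.TH464.PO.qs a b c)
    (Pool.Agent.TH464.PO.qs_sys a b c g1 g2 g3 g4) θ hθ r hr l hl ε hε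
  refine ⟨B, ?_⟩
  filter_upwards [hB] with X hX Y hXY hYX A hA
  have h := hX Y hXY hYX A (fun n hn => by
    intro i p hp hd
    exact hA hn p hp ((Pool.Agent.TH464.PO.qs_Q a b c p n).1 ⟨i, hd⟩))
  rw [Fintype.card_fin, pow_one, mul_div_assoc] at h
  refine le_trans (le_of_eq ?_) h
  unfold Pool.Agent.TH977.PW.N
  congr 2
  apply filter_congr
  intro m _
  exact Iff.rfl

end Pool.Agent.Results.MP_a17b09_nt.NarrowProgressions
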